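import Pool.Agent.TH761.EA.Shift

/-!
# Ground states on two-sided tubes for stationary ergodic couplings
-/

set_option autoImplicit false

open Finset MeasureTheory ProbabilityTheory Filter

namespace Pool.Agent.Q218.TB

open Pool.Agent.TH761.EA

variable {V I : Type} [Fintype V] [Fintype I] {s t : I → V}

/-- No segment is strictly cheapest, for any shift-invariant law. -/
theorem Ev_null (P : Measure (ℤ × (V ⊕ I) → ℝ)) [IsProbabilityMeasure P]
    (hP : MeasurePreserving sh P P) (c N : ℝ) (L : ℕ) :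
    ∀ᵐ J ∂P, ∀ z, ¬ Ev s t c N L J z := by
  have hshift : ∀ z, P {J | Ev s t c N L J (z + 1)} = P {J | Ev s t c N L J z} := by
    intro z
    have h1 : {J : ℤ × (V ⊕ I) → ℝ | Ev s t c N L J (z + 1)} = sh ⁻¹' {J | Ev s t c N L J z} := by
      ext J
      exact (Ev_sh c N L J z).symm
    rw [h1, hP.measure_preimage (Ev_meas c N L z).nullMeasurableSet]
  have hshift2 : ∀ z, ∀ n : ℕ,
      P {J | Ev s t c N L J (z + n)} = P {J | Ev s t c N L J z} := by
    intro z n
    induction n with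
    | zero => simp
    | succ n ih =>
      push_cast
      rw [← add_assoc, hshift, ih]
  rw [ae_all_iff]
  intro z
  have hdis : Pairwise (Function.onFun Disjoint
      fun n : ℕ => {J : ℤ × (V ⊕ I) → ℝ | Ev s t c N L J (z + n)}) := by
    intro n n' hnn
    rw [Function.onFun, Set.disjoint_left]
    intro J h h'
    rcases lt_or_gt_of_ne hnn with h1 | h1
    · exact Ev_disj (by omega : z + (n : ℤ) < z + n') h h'
    · exact Ev_disj (by omega : z + (n' : ℤ) < z + n) h' h
  have hsum := tsum_meas_le_meas_iUnion_of_disjoint P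
    (fun n : ℕ => Ev_meas (s := s) (t := t) c N L (z + n)) hdis
  have hle : ∑' _ : ℕ, P {J | Ev s t c N L J z} ≤ 1 := by
    calc ∑' _ : ℕ, P {J | Ev s t c N L J z}
        = ∑' n : ℕ, P {J | Ev s t c N L J (z + n)} :=
          tsum_congr fun n => (hshift2 z n).symm
      _ ≤ _ := hsum
      _ ≤ 1 := prob_le_one
  have h0 : P {J | Ev s t c N L J z} = 0 := by
    by_contra hne
    rw [ENNReal.tsum_const_eq_top_of_ne_zero hne] at hle
    exact absurd hle (by simp)
  rw [ae_iff]
  simpa using h0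

/-- Pinning blocks recur in both directions. -/
theorem often (P : Measure (ℤ × (V ⊕ I) → ℝ)) [IsProbabilityMeasure P]
    (hE : Ergodic sh P) (c N : ℝ) (L : ℕ) {ε : ℤ} (hε : ε = 1 ∨ ε = -1)
    (h0 : 0 < P {J | Tr c N L J 0}) :
    ∀ᵐ J ∂P, ∃ᶠ k : ℕ in atTop, Tr c N L J (ε * k) := by
  -- stationarity
  have hst : ∀ z, P {J | Tr c N L J (z + 1)} = P {J | Tr c N L J z} := by
    intro z
    have h1 : {J : ℤ × (V ⊕ I) → ℝ | Tr c N L J (z + 1)} = sh ⁻¹' {J | Tr c N L J z} := by
      ext J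
      exact (Tr_sh c N L J z).symm
    rw [h1, hE.toMeasurePreserving.measure_preimage (Tr_meas c N L z).nullMeasurableSet]
  have hst2 : ∀ z : ℤ, P {J | Tr c N L J z} = P {J | Tr c N L J 0} := by
    intro z
    induction z using Int.induction_on with
    | zero => rfl
    | succ n ih => rw [hst, ih]
    | pred n ih =>
      rw [← ih, ← hst (-(n : ℤ) - 1), sub_add_cancel]
  set F : Set (ℤ × (V ⊕ I) → ℝ) := {J | ∃ᶠ k : ℕ in atTop, Tr c N L J (ε * k)} with hF
  have hFeq : F = ⋂ n : ℕ, ⋃ k : ℕ, ⋃ _ : n ≤ k, {J | Tr c N L J (ε * k)} := by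
    ext J
    simp only [hF, Set.mem_setOf_eq, frequently_atTop, Set.mem_iInter, Set.mem_iUnion, exists_prop]
  have hB : ∀ n : ℕ, MeasurableSet (⋃ k : ℕ, ⋃ _ : n ≤ k,
      {J : ℤ × (V ⊕ I) → ℝ | Tr c N L J (ε * k)}) := fun n =>
    MeasurableSet.iUnion fun k => MeasurableSet.iUnion fun _ => Tr_meas c N L _
  have hFm : MeasurableSet F := by
    rw [hFeq]
    exact MeasurableSet.iInter hB
  have hinv : sh ⁻¹' F = F := by
    ext J
    simp only [hF, Set.mem_preimage, Set.mem_setOf_eq, Tr_sh, frequently_atTop]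
    rcases hε with h | h
    · subst h
      constructor
      · intro h a
        obtain ⟨b, hb, hT⟩ := h a
        exact ⟨b + 1, by omega, by push_cast; rw [mul_add, mul_one]; exact hT⟩
      · intro h a
        obtain ⟨b, hb, hT⟩ := h (a + 1)
        refine ⟨b - 1, by omega, ?_⟩
        have : (1 : ℤ) * ((b - 1 : ℕ) : ℤ) + 1 = 1 * (b : ℤ) := by
          rw [Nat.cast_sub (by omega)]; push_cast; ring
        rw [this]; exact hT
    · subst h
      constructor
      · intro h a
        obtain ⟨b, hb, hT⟩ := h (a + 1)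
        refine ⟨b - 1, by omega, ?_⟩
        have : (-1 : ℤ) * ((b - 1 : ℕ) : ℤ) = -1 * (b : ℤ) + 1 := by
          rw [Nat.cast_sub (by omega)]; push_cast; ring
        rw [this]; exact hT
      · intro h a
        obtain ⟨b, hb, hT⟩ := h a
        refine ⟨b + 1, by omega, ?_⟩
        have : (-1 : ℤ) * ((b + 1 : ℕ) : ℤ) + 1 = -1 * (b : ℤ) := by
          push_cast; ring
        rw [this]; exact hT
  have hpos : 0 < P F := by
    refine lt_of_lt_of_le h0 ?_
    rw [hFeq]
    have hlim := tendsto_measure_iInter_atTop (μ := P) (s := fun n : ℕ => ⋃ k : ℕ, ⋃ _ : n ≤ k,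
      {J : ℤ × (V ⊕ I) → ℝ | Tr c N L J (ε * k)}) (fun n => (hB n).nullMeasurableSet)
      (by
        intro n m hnm
        refine Set.iUnion_mono fun k => ?_
        refine Set.iUnion_subset fun hk => ?_
        exact Set.subset_iUnion (fun _ : n ≤ k => {J : ℤ × (V ⊕ I) → ℝ | Tr c N L J (ε * k)})
          (hnm.trans hk))
      ⟨0, measure_ne_top _ _⟩
    refine ge_of_tendsto hlim (Eventually.of_forall fun n => ?_)
    rw [← hst2 (ε * n)]
    refine measure_mono ?_
    exact Set.subset_iUnion_of_subset n (Set.subset_iUnion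
      (fun _ : n ≤ n => {J : ℤ × (V ⊕ I) → ℝ | Tr c N L J (ε * n)}) le_rfl)
  rcases hE.toPreErgodic.ae_empty_or_univ hFm hinv with h | h
  · exfalso
    rw [measure_congr h, measure_empty] at hpos
    exact lt_irrefl _ hpos
  · filter_upwards [h] with J hJ
    have : J ∈ F := by
      have h1 : F J = Set.univ J := hJ
      change F J
      rw [h1]; trivial
    exact this

/-- Nonvanishing signed sums give genericity. -/
theorem generic_of {J : ℤ × (V ⊕ I) → ℝ}
    (h : ∀ (T : Finset (ℤ × (V ⊕ I))) (k : ℤ × (V ⊕ I) → ℝ), T.Nonempty →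
      (∀ e, k e = 1 ∨ k e = -1) → ∑ e ∈ T, k e * J e ≠ 0) : Generic s t J := by
  classical
  intro p q A B hex hcon
  obtain ⟨e0, he0, hne⟩ := hex
  set T : Finset (ℤ × (V ⊕ I)) := (Ico p q ×ˢ (Finset.univ : Finset (V ⊕ I))).filter
    (fun e => bd s t (cf A) e ≠ bd s t (cf B) e) with hT
  refine h T (fun e => if bd s t (cf A) e = 1 then 1 else -1) ⟨e0, ?_⟩ (fun e => ?_) ?_
  · rw [hT, Finset.mem_filter, Finset.mem_product]
    exact ⟨⟨he0, Finset.mem_univ _⟩, hne⟩
  · by_cases h1 : bd s t (cf A) e = 1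
    · left; simp [h1]
    · right; simp [h1]
  · have h2 : S s t J (cf A) p q - S s t J (cf B) p q = 0 := sub_eq_zero.2 hcon
    unfold S en at h2
    rw [← Finset.sum_sub_distrib] at h2
    have h3 : ∑ e ∈ Ico p q ×ˢ (Finset.univ : Finset (V ⊕ I)),
        (bd s t (cf A) e - bd s t (cf B) e) * J e = 0 := by
      rw [Finset.sum_product, ← h2]
      refine Finset.sum_congr rfl fun n _ => ?_
      rw [← Finset.sum_sub_distrib]
      refine Finset.sum_congr rfl fun c _ => ?_
      ring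
    have h4 : ∑ e ∈ T, (bd s t (cf A) e - bd s t (cf B) e) * J e = 0 := by
      rw [hT, Finset.sum_filter_of_ne, h3]
      intro e _ hne2 h5
      apply hne2
      rw [h5, sub_self, zero_mul]
    have h6 : ∑ e ∈ T, (if bd s t (cf A) e = 1 then (1 : ℝ) else -1) * J e =
        (1 / 2) * ∑ e ∈ T, (bd s t (cf A) e - bd s t (cf B) e) * J e := by
      rw [Finset.mul_sum]
      refine Finset.sum_congr rfl fun e he => ?_
      rw [hT, Finset.mem_filter] at he
      have hA := bd_pm (s := s) (t := t) (cf_pm A) e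
      have hB := bd_pm (s := s) (t := t) (cf_pm B) e
      rcases hA with hA | hA <;> rcases hB with hB | hB
      · exact absurd (hA.trans hB.symm) he.2
      · rw [if_pos hA, hA, hB]; ring
      · rw [if_neg (by rw [hA]; norm_num), hA, hB]; ring
      · exact absurd (hA.trans hB.symm) he.2
    rw [h6, h4, mul_zero]

/-- **Uniqueness for stationary ergodic couplings.** -/
theorem main [Nonempty V] (P : Measure (ℤ × (V ⊕ I) → ℝ)) [IsProbabilityMeasure P]
    (hE : Ergodic sh P)
    (hg : ∀ᵐ J ∂P, ∀ (T : Finset (ℤ × (V ⊕ I))) (k : ℤ × (V ⊕ I) → ℝ), T.Nonempty →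
      (∀ e, k e = 1 ∨ k e = -1) → ∑ e ∈ T, k e * J e ≠ 0)
    {c N : ℝ} (hc : 0 < c)
    (hpat : ∀ A B : Finset (ℤ × (V ⊕ I)), Disjoint A B →
      0 < P {J | (∀ e ∈ A, J e ∈ Set.Ioo 0 c) ∧ ∀ e ∈ B, J e ∈ Set.Ioo c N})
    (hH : ∀ f : V → ℝ, (∀ i, f (s i) = f (t i)) → ∀ x y, f x = f y) :
    ∀ᵐ J ∂P, ∃ σ, Gr s t J σ ∧ ∀ τ, Gr s t J τ → τ = σ ∨ τ = -σ := by
  classical
  obtain ⟨L, hL⟩ : ∃ L : ℕ, 2 * N * Fintype.card V < c * ((L : ℝ) - 1) := by
    obtain ⟨L, hL⟩ := exists_nat_gt (2 * N * Fintype.card V / c + 1)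
    refine ⟨L, ?_⟩
    have : 2 * N * Fintype.card V / c < L - 1 := by linarith
    rw [div_lt_iff₀ hc] at this
    linarith
  have h0 : 0 < P {J | Tr c N L J 0} := by
    refine lt_of_lt_of_le (hpat ((blk V I L 0).filter fun e => e.1 = 0 ∧ e.2.isLeft)
      ((blk V I L 0).filter fun e => ¬ (e.1 = 0 ∧ e.2.isLeft))
      (Finset.disjoint_filter_filter_not _ _ _)) (measure_mono ?_)
    rintro J ⟨h1, h2⟩ e he
    unfold win
    split_ifs with h
    · exact h1 e (Finset.mem_filter.2 ⟨he, h⟩)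
    · exact h2 e (Finset.mem_filter.2 ⟨he, h⟩)
  filter_upwards [hg, Ev_null (s := s) (t := t) P hE.toMeasurePreserving c N L,
    often P hE c N L (Or.inl rfl) h0, often P hE c N L (Or.inr rfl) h0] with J hg hev hr hl
  obtain ⟨σ, hσ⟩ := exists_ground (generic_of (s := s) (t := t) hg)
  refine ⟨σ, hσ, fun τ hτ => ?_⟩
  refine unique (T := fun z => Tr c N L J z) (fun z hz ρ hρ => hz.uniform hc hL hH hρ) ?_ ?_ ?_
    hσ hτ
  · intro K
    rw [Filter.frequently_atTop] at hr
    obtain ⟨k, hk, hT⟩ := hr (K.toNat + 1)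
    refine ⟨_, ?_, hT⟩
    have h2 : (K : ℤ) < k := by omega
    linarith
  · intro K
    rw [Filter.frequently_atTop] at hl
    obtain ⟨k, hk, hT⟩ := hl ((-K).toNat + 1)
    refine ⟨_, ?_, hT⟩
    have h2 : -(K : ℤ) < k := by omega
    linarith
  · rintro ⟨z, q, hz, hzq, hq, hno, hall⟩
    exact hev z ⟨hz, q, hzq, hq, hno, hall⟩

end Pool.Agent.Q218.TB
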